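import Mathlib
import Pool.Agent.K1H59.SC.K

set_option autoImplicit false

/-!
# MP_c35bdc_nt, Q1 (full answer: the supercongruence is true)

For every prime `p > 5`, `S(p) = ∑_{k<p} C(-1/4,k) C(-1/2,k) 2^k` is congruent to `2x - p/(2x)`
modulo `p^2` if `p = x^2 + 2y^2` with `x ≡ 1 (mod 4)`, and to `0` modulo `p` if `p ≡ 5, 7 (mod 8)`.
-/

namespace Pool.Agent.Results.MP_c35bdc_nt.Supercongruence

open Finset

/-- the generalized binomial coefficient `C(a,k) = a(a-1)...(a-k+1)/k!` -/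
def binom (a : ℚ) (k : ℕ) : ℚ := (∏ i ∈ range k, (a - i)) / k.factorial

/-- `S(p) = ∑_{k=0}^{p-1} C(-1/4,k) C(-1/2,k) 2^k` -/
def S (p : ℕ) : ℚ := ∑ k ∈ range p, binom (-1 / 4) k * binom (-1 / 2) k * 2 ^ k

/-- `u ≡ v (mod p^m)`: the numerator of `u - v` in lowest terms is divisible by `p^m` -/
def Cong (p m : ℕ) (u v : ℚ) : Prop := (p : ℤ) ^ m ∣ (u - v).num

/-- The full answer to Q1. -/
theorem result (p : ℕ) (hp : p.Prime) (h5 : 5 < p) :
    (∀ x y : ℤ, (p : ℤ) = x ^ 2 + 2 * y ^ 2 → x % 4 = 1 →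
      Cong p 2 (S p) (2 * x - p / (2 * x))) ∧
    (p % 8 = 5 ∨ p % 8 = 7 → Cong p 1 (S p) 0) := by
  have : Fact p.Prime := ⟨hp⟩
  have hS : S p = Pool.Agent.K1H59.SC.Sp p := rfl
  constructor
  · intro x y h hx
    rw [Cong, hS]
    apply Pool.Agent.K1H59.SC.num_of_I
    -- `p` is `1` or `3` modulo `8`
    have hodd : p % 2 = 1 := by
      rcases hp.eq_two_or_odd with h2 | h2
      · omega
      · exact h2
    obtain ⟨z, hz⟩ : ∃ z, x = 4 * z + 1 := ⟨x / 4, by omega⟩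
    have hx8 : x ^ 2 = 8 * (2 * z ^ 2 + z) + 1 := by rw [hz]; ring
    have hy8 : 2 * y ^ 2 % 8 = 0 ∨ 2 * y ^ 2 % 8 = 2 := by
      rcases Int.even_or_odd' y with ⟨w, hw | hw⟩
      · left
        have : 2 * y ^ 2 = 8 * w ^ 2 := by rw [hw]; ring
        rw [this]; omega
      · right
        have : 2 * y ^ 2 = 8 * (w ^ 2 + w) + 2 := by rw [hw]; ring
        rw [this]; omega
    have h13 : p % 8 = 1 ∨ p % 8 = 3 := by omega
    rcases h13 with h1 | h3
    · exact Pool.Agent.K1H59.SC.case1 (j := p / 8) (by omega) h5 h hx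
    · exact Pool.Agent.K1H59.SC.case3 (t := p / 8) (by omega) h5 h hx
  · intro h
    rw [Cong, hS, sub_zero]
    apply Pool.Agent.K1H59.SC.num_of_I
    rcases h with h | h
    · exact Pool.Agent.K1H59.SC.S_odd (n := (p - 1) / 2) (c := 1) (j := p / 8) (by omega) (by omega)
        (by omega)
    · exact Pool.Agent.K1H59.SC.S_odd (n := (p - 1) / 2) (c := 3) (j := 3 * (p / 8) + 2) (by omega)
        (by omega) (by omega)

end Pool.Agent.Results.MP_c35bdc_nt.Supercongruence
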